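import Pool.Agent.Lib.MP_204515_an_QC.Her

/-! The unital case, C*-algebras without unit whose centre contains an approximate unit (for
example all commutative ones), and hereditary subalgebras. -/

set_option autoImplicit false

open scoped MultiplierAlgebra

namespace Pool.Agent.Results.MP_204515_an.QuasiCentral

open Pool.Agent.Lib.MP_204515_an Pool.Agent.Lib.MP_204515_an_NU Pool.Agent.Lib.MP_204515_an_QC

lemma inG_of_subsingleton (A : Type*) [NonUnitalCStarAlgebra A] [PartialOrder A]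
    [StarOrderedRing A] [Subsingleton A] {n : ℕ} (Γ : SimpleGraph (Fin n)) : InG A Γ :=
  fun _ _ => ⟨0, le_rfl, fun _ _ _ => Subsingleton.elim _ _⟩

lemma elim_of_inG (A : Type*) [NonUnitalCStarAlgebra A] [PartialOrder A]
    [StarOrderedRing A] [Nontrivial A] {n : ℕ} {Γ : SimpleGraph (Fin n)} (h : InG A Γ) :
    Elim Γ := by
  let _ : PartialOrder 𝓜(ℂ, A) := CStarAlgebra.spectralOrder _
  have : StarOrderedRing 𝓜(ℂ, A) := CStarAlgebra.spectralOrderedRing _
  exact elim_of_noObs (noObs_of_inG (DoubleCentralizer.coeHom (𝕜 := ℂ) (A := A))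
    coe_injective h)

/-- (1) For every unital C*-algebra `A`, `G(M_m(A)) = G(A)` for every `m ≥ 1`.
(2) The same for every C*-algebra `B`, with or without unit, such that for all `a ∈ B` and `ε > 0`
there is an element `e` of the centre of `B` with `‖a - e a‖ < ε`.
(3) If moreover the path with three vertices is in `G(B)` and `A` is a hereditary C*-subalgebra of
`B` (given as an injective *-homomorphism `φ : A → B` with `φ(A) B φ(A) ⊆ φ(A)`), then
`G(M_m(A)) = G(A)` for every `m ≥ 1`, and `G(A) = G(B)` if `A` is not zero. -/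
theorem result :
    (∀ (A : Type*) [CStarAlgebra A] [PartialOrder A] [StarOrderedRing A] (m : ℕ), 0 < m →
      ∀ (n : ℕ) (Γ : SimpleGraph (Fin n)),
        (InG (CStarMatrix (Fin m) (Fin m) A) Γ ↔ InG A Γ)) ∧
    (∀ (B : Type*) [NonUnitalCStarAlgebra B] [PartialOrder B] [StarOrderedRing B],
      (∀ (a : B) (ε : ℝ), 0 < ε → ∃ e : B, (∀ b, e * b = b * e) ∧ ‖a - e * a‖ < ε) →
      (∀ (m : ℕ), 0 < m → ∀ (n : ℕ) (Γ : SimpleGraph (Fin n)),
        (InG (CStarMatrix (Fin m) (Fin m) B) Γ ↔ InG B Γ)) ∧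
      (InG B (SimpleGraph.pathGraph 3) →
        ∀ (A : Type*) [NonUnitalCStarAlgebra A] [PartialOrder A] [StarOrderedRing A]
          (φ : A →⋆ₙₐ[ℂ] B), Function.Injective φ →
          (∀ (a a' : A) (b : B), ∃ c, φ c = φ a * b * φ a') →
          (∀ (m : ℕ), 0 < m → ∀ (n : ℕ) (Γ : SimpleGraph (Fin n)),
            (InG (CStarMatrix (Fin m) (Fin m) A) Γ ↔ InG A Γ)) ∧
          (Nontrivial A → ∀ (n : ℕ) (Γ : SimpleGraph (Fin n)), InG A Γ ↔ InG B Γ))) := by
  refine ⟨fun A _ _ _ m hm n Γ => unital A m hm n Γ, fun B _ _ _ hB =>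
    ⟨fun m hm n Γ => ⟨inG_of_amp hm, quasi_amp hB hm⟩, fun hP A _ _ _ φ hφ hher =>
    ⟨fun m hm n Γ => ?_, fun hA n Γ => ⟨fun h => ?_, fun h => ?_⟩⟩⟩⟩
  · rcases subsingleton_or_nontrivial A with hs | hs
    · exact ⟨fun _ => inG_of_subsingleton A Γ, fun _ => inG_of_subsingleton _ Γ⟩
    · exact ⟨inG_of_amp hm, fun h => her_amp hB hP φ hφ hher hm (elim_of_inG A h)⟩
  · exact inG_of_amp one_pos (her_amp hB hP (NonUnitalStarAlgHom.id ℂ B) Function.injective_id
      (fun a a' b => ⟨a * b * a', rfl⟩) one_pos (elim_of_inG A h))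
  · have : Nontrivial B := hφ.nontrivial
    exact inG_of_amp one_pos (her_amp hB hP φ hφ hher one_pos (elim_of_inG B h))

end Pool.Agent.Results.MP_204515_an.QuasiCentral
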